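import Pool.Agent.H69.SM.FZa
import Pool.Agent.H42.CRZ.RP
import Pool.Agent.H42.CRZ.ZM
import Pool.Agent.H77.CRZ.BK
import Pool.Agent.H77.CRZ.N2
import Pool.Agent.H19.CRZ.JN
import Pool.Agent.H68.CRZ.AG
import Pool.Agent.H56.CRZ.G2
import Pool.Agent.H68.CRG.RV
import Pool.Agent.H19.CRG.V0
import Pool.Agent.H19.CRG.SY
import Pool.Agent.H80.CRG.TR
import Pool.Agent.H54.CRG.QI

/-!
# The `L`-functions of the primitive characters modulo a special modulus and their zeros: the row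
-/

set_option autoImplicit false

namespace Pool.Agent.H69.SM

open Pool.Agent.H65.CRZ Pool.Agent.H65.CRG

/-- the closed fact on the zeros in a rectangle -/
theorem a_RV : Pool.Agent.H65.CRG.T_RV :=
  Pool.Agent.H68.CRG.pf_RV Pool.Agent.H42.CRZ.pf_RP Pool.Agent.H42.CRZ.pf_ZM
    (Pool.Agent.H77.CRZ.pf_N2 Pool.Agent.H68.CRZ.pf_AG)
    (Pool.Agent.H77.CRZ.pf_BK Pool.Agent.H19.CRZ.pf_JN) Pool.Agent.H56.CRZ.pf_G2
    (Pool.Agent.H19.CRG.pf_V0 Pool.Agent.H80.CRG.pf_TR Pool.Agent.H54.CRG.pf_QI)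
    (Pool.Agent.H19.CRG.pf_SY Pool.Agent.H56.CRZ.pf_G2)

theorem pf_FZz (hLF : Pool.Agent.H20.SM.T_LFz) (hCQ : Pool.Agent.H20.SM.T_CQz)
    (hIE : Pool.Agent.H20.SM.T_IEq) (hPNC : Pool.Agent.H20.SM.T_PNC)
    (hNCR : Pool.Agent.H20.SM.T_NCR) : Pool.Agent.H20.SM.T_FZz :=
  FZ_core a_RV hLF hCQ hIE hPNC hNCR

end Pool.Agent.H69.SM
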