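import Pool.Agent.H65.CRG.FM1
import Pool.Agent.H20.SM.TZ

/-!
# The `L`-functions of the primitive characters modulo a special modulus and their zeros
-/

set_option autoImplicit false

open NumberField NumberField.InfinitePlace Complex Filter Topology MeasureTheory

namespace Pool.Agent.H69.SM

open Pool.Agent.H28.RC Pool.Agent.H25.HK Pool.Agent.H37.CV Pool.Agent.H65.CRZ Pool.Agent.H65.CRG
open Pool.Agent.H20.SM

/-- the square root of the scale is at most the modulus -/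
theorem sqrt_le_of_Sp (F : Type) [Field F] [NumberField F] (A : ℕ) (x : ℝ) (q : ℕ)
    (hx : 3 ≤ x) (h : Sp F A x q) : Real.sqrt x ≤ (q : ℝ) := by
  have h0 : 0 < Real.log x := Real.log_pos (by linarith)
  have h1 : (0 : ℝ) < (q.primeFactors.card : ℝ) := lt_of_lt_of_le (pow_pos h0 A) h.lo
  have h2 : 0 < q.primeFactors.card := by exact_mod_cast h1
  obtain ⟨p, hp⟩ := Finset.card_pos.1 h2
  have h4 : (p : ℝ) ≤ q := by exact_mod_cast Nat.le_of_mem_primeFactors hp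
  exact (h.low p hp).trans h4

/-- the zeros, from the bound for their number -/
theorem FZ_core (hRV : Pool.Agent.H65.CRG.T_RV) (hLF : T_LFz) (hCQ : T_CQz)
    (hIE : Pool.Agent.H20.SM.T_IEq) (hPNC : Pool.Agent.H20.SM.T_PNC)
    (hNCR : Pool.Agent.H20.SM.T_NCR) : T_FZz := by
  intro K _ _ _ _ A₀ ε₀ hε₀
  have hpi := Real.pi_pos
  obtain ⟨ε, hεdef⟩ : ∃ ε : ℝ, ε = min ε₀ (1 / 10) := ⟨_, rfl⟩
  have hε : 0 < ε := by rw [hεdef]; exact lt_min hε₀ (by norm_num)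
  have hε1 : ε ≤ 1 / 10 := by rw [hεdef]; exact min_le_right _ _
  have hεε : ε ≤ ε₀ := by rw [hεdef]; exact min_le_left _ _
  obtain ⟨C₁, q₁, hC₁, hLF⟩ := hLF K
  obtain ⟨hn1, hdn, c, hc, hcq⟩ := hCQ K
  obtain ⟨b₁, hb₁, hb₁'⟩ := choose_b C₁
  obtain ⟨C₅, hC₅, hRV⟩ := hRV (nrComplexPlaces K) C₁ b₁ hC₁ hb₁ hb₁'
  refine ⟨max 1 (4 * Real.pi * C₅ / ε), lt_of_lt_of_le one_pos (le_max_left _ _), fun T hT => ?_⟩
  have hT1 : 1 ≤ T := (le_max_left _ _).trans hT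
  have hT0 : 0 < T := by linarith
  have hTC₅ : 4 * Real.pi * C₅ ≤ ε * T := by
    have h := (le_max_right _ _).trans hT
    rw [div_le_iff₀ hε] at h
    linarith
  obtain ⟨A₁, hA₁, hRV⟩ := hRV T hT0
  obtain ⟨_, _, _, _, hNCR⟩ := hNCR K
  obtain ⟨x₄, hNCR⟩ := hNCR A₀
  obtain ⟨x₅, hPNC⟩ := hPNC K A₀ (1 / 2) (by norm_num)
  obtain ⟨q₆, hq₆2, hlog⟩ := log_cqn hc (nrComplexPlaces K) hn1 (ε / 4) (div_pos hε (by norm_num))
  obtain ⟨q₇, hq₇⟩ : ∃ q₇ : ℕ, ∀ q : ℕ, q₇ ≤ q →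
      max A₁ 1 ≤ c * (q : ℝ) ^ nrComplexPlaces K := by
    have h1 : Tendsto (fun q : ℕ => c * (q : ℝ) ^ nrComplexPlaces K) atTop atTop :=
      ((tendsto_pow_atTop (by omega)).comp tendsto_natCast_atTop_atTop).const_mul_atTop hc
    exact eventually_atTop.1 (h1.eventually (eventually_ge_atTop _))
  obtain ⟨Q, hQ⟩ : ∃ Q : ℕ, Q = max q₁ (max q₆ q₇) := ⟨_, rfl⟩
  refine ⟨max 3 (max (max x₄ x₅) ((Q : ℝ) ^ 2)), fun x q hx hq => ?_⟩
  have hx3 : 3 ≤ x := (le_max_left _ _).trans hx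
  have hx4 : x₄ ≤ x :=
    (((le_max_left _ _).trans (le_max_left _ _)).trans (le_max_right _ _)).trans hx
  have hx5 : x₅ ≤ x :=
    (((le_max_right _ _).trans (le_max_left _ _)).trans (le_max_right _ _)).trans hx
  have hx6 : (Q : ℝ) ^ 2 ≤ x := ((le_max_right _ _).trans (le_max_right _ _)).trans hx
  have hQq : Q ≤ q := by
    have h1 : (Q : ℝ) ≤ Real.sqrt x := Real.le_sqrt_of_sq_le hx6
    exact_mod_cast h1.trans (sqrt_le_of_Sp K A₀ x q hx3 hq)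
  have hqa : q₁ ≤ q := (le_max_left _ _).trans (hQ ▸ hQq)
  have hqf : q₆ ≤ q := ((le_max_left _ _).trans (le_max_right _ _)).trans (hQ ▸ hQq)
  have hqg : q₇ ≤ q := ((le_max_right _ _).trans (le_max_right _ _)).trans (hQ ▸ hQq)
  have hq1 : 1 ≤ q := by omega
  replace hLF := hLF q hqa
  obtain ⟨hPN, -⟩ := hPNC x q hx5 hq
  obtain ⟨hnc, -⟩ := hNCR x q hx4 hq
  obtain ⟨hlog1, hlog2⟩ := hlog q hqf
  have hAq := hq₇ q hqg
  obtain ⟨hAeq, hnm⟩ := hcq q hq1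
  obtain ⟨A, hA⟩ : ∃ A : ℝ, A = cB K (qi K q) := ⟨_, rfl⟩
  rw [← hAeq, ← hA] at hAq hlog1 hlog2
  rw [← hA] at hLF
  have hAA₁ : A₁ ≤ A := (le_max_left _ _).trans hAq
  have hlA : 0 ≤ Real.log A := Real.log_nonneg ((le_max_right _ _).trans hAq)
  obtain ⟨hPf, -⟩ := hIE K q hq.sq
  have hn0 : (0 : ℝ) < ((Pr K (qi K q)).ncard : ℝ) := by
    refine lt_of_lt_of_le ?_ hPN
    have : (0 : ℝ) < (nc (qi K q) (qi K q) : ℝ) := Nat.cast_pos.2 hnc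
    linarith
  have hPpos : 0 < (Pr K (qi K q)).ncard := Nat.cast_pos.1 hn0
  have hlq : 0 ≤ Real.log q := Real.log_nonneg (by exact_mod_cast hq1)
  have hd2 : (Module.finrank ℚ K : ℝ) / 2 = nrComplexPlaces K := by
    rw [hdn]; push_cast; ring
  refine ⟨hPf, hPpos, fun χ hχ => ?_⟩
  obtain ⟨h1, h2⟩ := hRV A hAA₁ (Zx χ) (hLF χ hχ).2
  refine ⟨(hLF χ hχ).1, h1, ?_⟩
  rw [hd2]
  exact num_all hT0 hε hε1 hεε hlA (by positivity) hTC₅ hlog2 h2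

end Pool.Agent.H69.SM
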